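import Pool.Agent.HCV.Chk3

set_option autoImplicit false

namespace HCV.Q5

/-- the six vertices of the hexagon, the first one repeated -/
def L0 : ℕ := 301893661110666021513610608019230174421560701513503367674674714988339178279373674378974850503250290202880386197578539824625953456054535896902192838002650016206549270374785684354979426183170229405976139868319744082796851515953454553183432168048789515837904764991837590712301207959958468242461131161821906209626300347812203971416498147783358359423319148552618823611358222018458444258783497193163677573271384090999728014104562191054768257879904300360712014630688669814368926245070029584747317605788669692271111193752160596112582149267241539130931055023344742333272904839759128668254286673908146403350896267848790390327269747079636313133653603676647877446129186118855657580385544658417625624402781649742506742953208726488731839173155691026763644345391226585407902852473768084962406378434462846144816168396422683675163796227007556292601824642788167885263901953520013098551431957796069817758902215600091966000952312587464311112929192662626146642229806332049094837227381021865263715167917681065185899556392450936588681846139567061823092586422477056060328692898505449676152335788875773437959873489367166302917514918204268831323489271452564777414613146938458441425958558514174471884444682062480510227803782480830055400528400341196268036423680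

end HCV.Q5
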